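import Pool.Agent.R624.GT.Asm
import Pool.Agent.R624.GT.RSp

/-!
# Every almost total enumeration degree is graph-cototal

Problem MP_c7b1db_lc, Q1, answered in the negative: there is no almost total enumeration degree
which is not graph-cototal.

An enumeration degree is *almost total* if its join with every total degree which is not below it is
total (Andrews, Igusa, Miller, Soskova).

Proof.  Let `A` be almost total.  For almost every `X` (fair coin measure) the join of `A` and
`X ⊕ Xᶜ` is total; one pair of operators works for more than `5/6` of a cylinder.  Taking majorities
gives `Σ⁰₁⟨A⟩` statements `O (n, k)`, `N (n, k)`, never both true, such that all `N (n, k)` are true if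
`n ∉ A`, and `n ∈ A` if and only if some `O (n, k)` is true.  By the proof that regular spaces with a
countable base are normal one gets, uniformly for every `Σ⁰₁⟨A⟩` statement `q`, statements
`G (q, k)`, `N (q, k)`, never both true, with `N (q, k)` or `G (q, k + 1)` true, such that `q` is
true if and only if some `G (q, k)` is.  The history of `A`: at stage `n` one notes whether `n ∈ A`
and in which ring `G (q, k + 1) ∧ N (q, k)`, or boundary `¬ G (q, k) ∧ ¬ N (q, k)` of two rings, `A`
is, `q` being the current `Σ⁰₁⟨A⟩` neighbourhood of `A`; at a boundary one starts again with the true
statement.  If `f n` is `0` for `n ∉ A`, and the history up to stage `n` (if there are only finitely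
many boundaries) or up to the first boundary after stage `n` (otherwise) for `n ∈ A`, then all
`f n ≠ m` are `Σ⁰₁⟨A⟩` statements, so the complement of the graph of `f` has the degree of `A`.
-/

set_option autoImplicit false

namespace Pool.Agent.Results.MP_c7b1db_lc.AlmostTotalGraphCototal

open Pool.Agent.R624.EDeg
open R624GT

/-- Every almost total enumeration degree is graph-cototal. -/
theorem result (a : EDegree) (ha : IsAlmostTotal a) : IsGraphCototal a := main s_rs a ha

end Pool.Agent.Results.MP_c7b1db_lc.AlmostTotalGraphCototal
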